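import Pool.Agent.H26.OutDefs
import Pool.Agent.H26.Out5

set_option autoImplicit false

namespace Pool.Agent.Results.MP_a5f8b0_al.OuterAut

open Pool.Agent.H26.OutDefs

/-- `Out(CT(ℤ))` is cyclic of order two, generated by the class of conjugation with
`ν(n) = -n - 1`. -/
theorem result :
    ∃ α : MulAut CTZ, IsConjNu α ∧ α ∉ Inn ∧ (∀ φ : MulAut CTZ, φ ∈ Inn ∨ ∃ β ∈ Inn, φ = β * α) ∧
      Inn.index = 2 :=
  Pool.Agent.H26.Out.own

end Pool.Agent.Results.MP_a5f8b0_al.OuterAut
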